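import Mathlib

/-!
MP_31c4fb_co, lower bound for N(0,k), module A: valid permutations, stabiliser bound, degrees.
-/

namespace Pool.Agent.KSLow

open Finset

variable {k : ℕ}

/-- the permutation `π` is valid for `a` -/
def Valid (a : Fin k → ℤ) (π : Equiv.Perm (Fin k)) : Prop :=
  Function.Injective fun i : Fin k => a (π i) + ((i : ℕ) : ℤ)

open Classical in
/-- the valid permutations -/
noncomputable def VV (a : Fin k → ℤ) : Finset (Equiv.Perm (Fin k)) :=
  Finset.univ.filter fun π => Valid a π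

theorem mem_VV {a : Fin k → ℤ} {π : Equiv.Perm (Fin k)} : π ∈ VV a ↔ Valid a π := by
  classical
  unfold VV
  simp

theorem valid_one {a : Fin k → ℤ} (ha : Monotone a) : Valid a 1 := by
  have h : StrictMono fun i : Fin k => a i + ((i : ℕ) : ℤ) := by
    intro i j hij
    have h1 := ha hij.le
    have h2 : ((i : ℕ) : ℤ) < ((j : ℕ) : ℤ) := by exact_mod_cast hij
    show a i + ((i : ℕ) : ℤ) < a j + ((j : ℕ) : ℤ)
    omega
  exact h.injective

/-- orbit-stabiliser bound -/
theorem stab_card {A β : Type*} [Fintype A] [DecidableEq A] [DecidableEq β] (g : A → β) :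
    (Fintype.card A).factorial ≤
      (Finset.univ.filter fun ρ : Equiv.Perm A => ∀ y, g (ρ y) = g y).card *
        (Finset.univ.image g).card ^ Fintype.card A := by
  classical
  have h1 := Finset.card_le_mul_card_image (s := (Finset.univ : Finset (Equiv.Perm A)))
    (f := fun ρ : Equiv.Perm A => fun y => g (ρ y))
    (Finset.univ.filter fun ρ : Equiv.Perm A => ∀ y, g (ρ y) = g y).card (by
      intro h hh
      obtain ⟨ρ₀, _, hρ₀⟩ := Finset.mem_image.1 hh
      apply Finset.card_le_card_of_injOn (fun ρ => ρ * ρ₀⁻¹)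
      · intro ρ hρ
        have hρ2 := (Finset.mem_filter.1 (Finset.mem_coe.1 hρ)).2
        rw [Finset.mem_coe, Finset.mem_filter]
        refine ⟨Finset.mem_univ _, ?_⟩
        intro y
        have h3 : g (ρ (ρ₀⁻¹ y)) = g (ρ₀ (ρ₀⁻¹ y)) := by
          have := congrFun (hρ2.trans hρ₀.symm) (ρ₀⁻¹ y)
          exact this
        rw [Equiv.Perm.mul_apply, h3]
        simp
      · intro ρ _ ρ' _ heq
        exact mul_right_cancel heq)
  rw [Finset.card_univ, Fintype.card_perm] at h1
  refine h1.trans (Nat.mul_le_mul_left _ ?_)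
  have h2 : (Finset.univ : Finset (Equiv.Perm A)).image (fun ρ : Equiv.Perm A => fun y => g (ρ y)) ⊆
      Fintype.piFinset fun _ : A => Finset.univ.image g := by
    intro h hh
    obtain ⟨ρ, _, hρ⟩ := Finset.mem_image.1 hh
    rw [Fintype.mem_piFinset]
    intro y
    rw [← hρ]
    exact Finset.mem_image_of_mem _ (Finset.mem_univ _)
  refine (Finset.card_le_card h2).trans ?_
  rw [Fintype.card_piFinset, Finset.prod_const, Finset.card_univ]

/-- few values: many valid permutations -/
theorem few_values {a : Fin k → ℤ} (h1 : Valid a 1) (A : Finset (Fin k)) :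
    A.card.factorial ≤ (VV a).card * (A.image a).card ^ A.card := by
  classical
  have h2 := stab_card (A := {x // x ∈ A}) (fun y : {x // x ∈ A} => a y)
  rw [Fintype.card_coe] at h2
  have h3 : (Finset.univ.image fun y : {x // x ∈ A} => a y) = A.image a := by
    ext z
    simp only [Finset.mem_image, Finset.mem_univ, true_and, Subtype.exists]
    constructor
    · rintro ⟨x, hx, h⟩
      exact ⟨x, hx, h⟩
    · rintro ⟨x, hx, h⟩
      exact ⟨x, hx, h⟩
  rw [h3] at h2
  refine h2.trans (Nat.mul_le_mul_right _ ?_)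
  apply Finset.card_le_card_of_injOn (fun ρ : Equiv.Perm {x // x ∈ A} =>
    Equiv.Perm.ofSubtype ρ)
  · intro ρ hρ
    have hρ2 := (Finset.mem_filter.1 (Finset.mem_coe.1 hρ)).2
    rw [Finset.mem_coe, mem_VV]
    have h4 : (fun i : Fin k => a ((Equiv.Perm.ofSubtype ρ) i) + ((i : ℕ) : ℤ)) =
        fun i : Fin k => a ((1 : Equiv.Perm (Fin k)) i) + ((i : ℕ) : ℤ) := by
      funext i
      by_cases hi : i ∈ A
      · rw [Equiv.Perm.ofSubtype_apply_of_mem _ hi, hρ2 ⟨i, hi⟩]
        rfl
      · rw [Equiv.Perm.ofSubtype_apply_of_not_mem _ hi]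
        rfl
    unfold Valid
    rw [h4]
    exact h1
  · intro ρ _ ρ' _ h
    exact Equiv.Perm.ofSubtype_injective h

open Classical in
/-- the positions `y`, not moved by `π`, where the item `x` may be put -/
noncomputable def Al (a : Fin k → ℤ) (π : Equiv.Perm (Fin k)) (x : Fin k) : Finset (Fin k) :=
  Finset.univ.filter fun y => π y = y ∧ ∀ i : Fin k, a (π i) + ((i : ℕ) : ℤ) ≠ a x + ((y : ℕ) : ℤ)

theorem mem_Al {a : Fin k → ℤ} {π : Equiv.Perm (Fin k)} {x y : Fin k} :
    y ∈ Al a π x ↔ π y = y ∧ ∀ i : Fin k, a (π i) + ((i : ℕ) : ℤ) ≠ a x + ((y : ℕ) : ℤ) := by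
  classical
  unfold Al
  simp

/-- degrees -/
theorem deg_le {a : Fin k → ℤ} {π : Equiv.Perm (Fin k)} (x : Fin k) {d h : ℕ}
    (hd : d ≤ (Finset.univ.filter fun i : Fin k => ¬ (a x ≤ a i + ((i : ℕ) : ℤ) ∧
      a i + ((i : ℕ) : ℤ) < a x + k)).card) (hh : π.support.card ≤ h) :
    d ≤ (Al a π x).card + 2 * h := by
  classical
  set B := Finset.univ.filter fun y : Fin k => ∃ i : Fin k,
    a (π i) + ((i : ℕ) : ℤ) = a x + ((y : ℕ) : ℤ) with hB
  set W := Finset.univ.filter fun i : Fin k => a x ≤ a (π i) + ((i : ℕ) : ℤ) ∧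
      a (π i) + ((i : ℕ) : ℤ) < a x + k with hW
  have h1 : B.card ≤ W.card := by
    have hex : ∀ y : Fin k, ∃ i : Fin k, y ∈ B → a (π i) + ((i : ℕ) : ℤ) = a x + ((y : ℕ) : ℤ) := by
      intro y
      by_cases hy : y ∈ B
      · obtain ⟨i, hi⟩ := (Finset.mem_filter.1 hy).2
        exact ⟨i, fun _ => hi⟩
      · exact ⟨y, fun h => absurd h hy⟩
    choose c hc using hex
    apply Finset.card_le_card_of_injOn c
    · intro y hy
      have h2 := hc y (Finset.mem_coe.1 hy)
      rw [Finset.mem_coe, hW, Finset.mem_filter]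
      refine ⟨Finset.mem_univ _, ?_⟩
      rw [h2]
      have := y.2
      constructor
      · omega
      · have : ((y : ℕ) : ℤ) < k := by exact_mod_cast y.2
        omega
    · intro y hy y' hy' heq
      have h2 := hc y (Finset.mem_coe.1 hy)
      have h3 := hc y' (Finset.mem_coe.1 hy')
      rw [heq] at h2
      have h4 : ((y : ℕ) : ℤ) = ((y' : ℕ) : ℤ) := by omega
      exact Fin.ext (by exact_mod_cast h4)
  have h2 : W.card + (Finset.univ.filter fun i : Fin k => ¬ (a x ≤ a (π i) + ((i : ℕ) : ℤ) ∧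
      a (π i) + ((i : ℕ) : ℤ) < a x + k)).card = k := by
    rw [hW, Finset.card_filter_add_card_filter_not, Finset.card_univ, Fintype.card_fin]
  have h3 : (Finset.univ.filter fun i : Fin k => ¬ (a x ≤ a i + ((i : ℕ) : ℤ) ∧
      a i + ((i : ℕ) : ℤ) < a x + k)).card ≤
      (Finset.univ.filter fun i : Fin k => ¬ (a x ≤ a (π i) + ((i : ℕ) : ℤ) ∧
      a (π i) + ((i : ℕ) : ℤ) < a x + k)).card + π.support.card := by
    refine le_trans (Finset.card_le_card ?_) (Finset.card_union_le _ _)
    intro i hi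
    rw [Finset.mem_union, Finset.mem_filter]
    by_cases hs : i ∈ π.support
    · exact Or.inr hs
    · left
      rw [Equiv.Perm.notMem_support] at hs
      rw [hs]
      exact ⟨Finset.mem_univ _, (Finset.mem_filter.1 hi).2⟩
  have h4 : (Finset.univ : Finset (Fin k)) ⊆ (Al a π x) ∪ (B ∪ π.support) := by
    intro y _
    rw [Finset.mem_union, Finset.mem_union, mem_Al]
    by_cases hs : y ∈ π.support
    · exact Or.inr (Or.inr hs)
    · rw [Equiv.Perm.notMem_support] at hs
      by_cases hb : y ∈ B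
      · exact Or.inr (Or.inl hb)
      · left
        refine ⟨hs, ?_⟩
        intro i hi
        exact hb (Finset.mem_filter.2 ⟨Finset.mem_univ _, i, hi⟩)
  have h5 := (Finset.card_le_card h4).trans ((Finset.card_union_le _ _).trans
    (Nat.add_le_add_left (Finset.card_union_le _ _) _))
  rw [Finset.card_univ, Fintype.card_fin] at h5
  omega

end Pool.Agent.KSLow
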