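import Pool.Agent.KSLow.A

/-!
MP_31c4fb_co, lower bound for N(0,k), module B: items outside the window of an item.
-/

namespace Pool.Agent.KSLow

open Finset

variable {k : ℕ}

theorem card_low {r : ℕ} (hr : r ≤ k) (P : Fin k → Prop) [DecidablePred P]
    (hP : ∀ i : Fin k, 2 * (i : ℕ) + 1 < r → P i) :
    r / 2 ≤ (Finset.univ.filter P).card := by
  have h0 : r / 2 ≤ k := (Nat.div_le_self _ _).trans hr
  have h1 : (Finset.univ : Finset (Fin (r / 2))).card ≤ (Finset.univ.filter P).card := by
    apply Finset.card_le_card_of_injOn (fun j => Fin.castLE h0 j)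
    · intro j _
      rw [Finset.mem_coe, Finset.mem_filter]
      refine ⟨Finset.mem_univ _, hP _ ?_⟩
      have := j.2
      rw [Fin.val_castLE]
      omega
    · intro i _ j _ h
      exact Fin.castLE_injective h0 h
  rwa [Finset.card_univ, Fintype.card_fin] at h1

theorem card_high {r : ℕ} (hr : r ≤ k) (P : Fin k → Prop) [DecidablePred P]
    (hP : ∀ i : Fin k, 2 * (k - 1 - (i : ℕ)) + 1 < r → P i) :
    r / 2 ≤ (Finset.univ.filter P).card := by
  have h0 : r / 2 ≤ k := (Nat.div_le_self _ _).trans hr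
  have h1 : (Finset.univ : Finset (Fin (r / 2))).card ≤ (Finset.univ.filter P).card := by
    apply Finset.card_le_card_of_injOn (fun j => Fin.rev (Fin.castLE h0 j))
    · intro j _
      rw [Finset.mem_coe, Finset.mem_filter]
      refine ⟨Finset.mem_univ _, hP _ ?_⟩
      have := j.2
      rw [Fin.val_rev, Fin.val_castLE]
      omega
    · intro i _ j _ h
      exact Fin.castLE_injective h0 (Fin.rev_injective h)
  rwa [Finset.card_univ, Fintype.card_fin] at h1

theorem low {a : Fin k → ℤ} (ha : Monotone a) {K r : ℕ}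
    (hr : r ≤ ((Finset.univ.filter fun i : Fin k => (i : ℕ) < K).image a).card) (x : Fin k)
    (hx : K ≤ (x : ℕ)) (i : Fin k) (hi : 2 * (i : ℕ) + 1 < r) :
    a i + ((i : ℕ) : ℤ) < a x := by
  have h1 : (Finset.univ.filter fun i : Fin k => (i : ℕ) < K).image a ⊆
      (Finset.Iic i).image a ∪ Finset.Ioc (a i) (a x) := by
    intro z hz
    obtain ⟨j, hj, hjz⟩ := Finset.mem_image.1 hz
    have hj2 := (Finset.mem_filter.1 hj).2
    rw [Finset.mem_union]
    by_cases hji : j ≤ i
    · exact Or.inl (Finset.mem_image.2 ⟨j, Finset.mem_Iic.2 hji, hjz⟩)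
    · push Not at hji
      have h2 := ha hji.le
      have h3 : a j ≤ a x := ha (by
        rw [Fin.le_def]
        omega)
      rcases eq_or_lt_of_le h2 with h4 | h4
      · exact Or.inl (Finset.mem_image.2 ⟨i, Finset.mem_Iic.2 le_rfl, h4.trans hjz⟩)
      · right
        rw [Finset.mem_Ioc, ← hjz]
        exact ⟨h4, h3⟩
  have h2 := (Finset.card_le_card h1).trans (Finset.card_union_le _ _)
  have h3 : ((Finset.Iic i).image a).card ≤ (i : ℕ) + 1 := by
    refine Finset.card_image_le.trans ?_
    rw [Fin.card_Iic]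
  rw [Int.card_Ioc] at h2
  omega

theorem high {a : Fin k → ℤ} (ha : Monotone a) {K r : ℕ}
    (hr : r ≤ ((Finset.univ.filter fun i : Fin k => k - K ≤ (i : ℕ)).image a).card) (x : Fin k)
    (hx : (x : ℕ) ≤ k - K) (i : Fin k) (hi : 2 * (k - 1 - (i : ℕ)) + 1 < r) :
    a x + k ≤ a i + ((i : ℕ) : ℤ) := by
  have h1 : (Finset.univ.filter fun i : Fin k => k - K ≤ (i : ℕ)).image a ⊆
      (Finset.Ici i).image a ∪ Finset.Ico (a x) (a i) := by
    intro z hz
    obtain ⟨j, hj, hjz⟩ := Finset.mem_image.1 hz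
    have hj2 := (Finset.mem_filter.1 hj).2
    rw [Finset.mem_union]
    by_cases hji : i ≤ j
    · exact Or.inl (Finset.mem_image.2 ⟨j, Finset.mem_Ici.2 hji, hjz⟩)
    · push Not at hji
      have h2 := ha hji.le
      have h3 : a x ≤ a j := ha (by
        rw [Fin.le_def]
        omega)
      rcases eq_or_lt_of_le h2 with h4 | h4
      · exact Or.inl (Finset.mem_image.2 ⟨i, Finset.mem_Ici.2 le_rfl, h4.symm.trans hjz⟩)
      · right
        rw [Finset.mem_Ico, ← hjz]
        exact ⟨h3, h4⟩
  have h2 := (Finset.card_le_card h1).trans (Finset.card_union_le _ _)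
  have h3 : ((Finset.Ici i).image a).card ≤ k - (i : ℕ) := by
    refine Finset.card_image_le.trans ?_
    rw [Fin.card_Ici]
  rw [Int.card_Ico] at h2
  have h4 := i.2
  omega

/-- many sums outside every window -/
theorem outside {a : Fin k → ℤ} (ha : Monotone a) {K r : ℕ} (hK : 2 * K ≤ k)
    (hr1 : r ≤ ((Finset.univ.filter fun i : Fin k => (i : ℕ) < K).image a).card)
    (hr2 : r ≤ ((Finset.univ.filter fun i : Fin k => k - K ≤ (i : ℕ)).image a).card) (x : Fin k) :
    r / 2 ≤ (Finset.univ.filter fun i : Fin k => ¬ (a x ≤ a i + ((i : ℕ) : ℤ) ∧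
      a i + ((i : ℕ) : ℤ) < a x + k)).card := by
  have hrk : r ≤ k := by
    refine hr1.trans (Finset.card_image_le.trans ((Finset.card_le_univ _).trans ?_))
    rw [Fintype.card_fin]
  by_cases hx : K ≤ (x : ℕ)
  · apply card_low hrk
    intro i hi h
    exact absurd h.1 (not_le.2 (low ha hr1 x hx i hi))
  · apply card_high hrk
    intro i hi h
    have := high ha hr2 x (by omega) i hi
    omega

end Pool.Agent.KSLow
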