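import Mathlib

/-!
MP_31c4fb_co, lower bound for N(0,k), module C: sampling of tuples.
-/

namespace Pool.Agent.KSLow

open Finset

section count

variable {α ι : Type*} [DecidableEq ι] [Fintype ι]

theorem count_det (U : Finset α) (P : Finset ι) (B : Finset (ι → α))
    (hB : ∀ f ∈ B, ∀ i, f i ∈ U)
    (hdet : ∀ f ∈ B, ∀ g ∈ B, (∀ i, i ∉ P → f i = g i) → f = g) :
    B.card ≤ U.card ^ (Fintype.card ι - P.card) := by
  have h1 : B.card ≤ (Fintype.piFinset fun _ : {i // i ∉ P} => U).card := by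
    apply Finset.card_le_card_of_injOn (fun f => fun i : {i // i ∉ P} => f i)
    · intro f hf
      rw [Finset.mem_coe, Fintype.mem_piFinset]
      intro i
      exact hB f (Finset.mem_coe.1 hf) i
    · intro f hf g hg h
      exact hdet f hf g hg (fun i hi => congrFun h ⟨i, hi⟩)
  rw [Fintype.card_piFinset, Finset.prod_const, Finset.card_univ, Fintype.card_subtype_compl,
    Fintype.card_coe] at h1
  exact h1

end count

theorem fin3a : ∀ c : Fin 3, c + 1 ≠ c := by decide

theorem fin3b : ∀ c : Fin 3, c + 1 + 1 ≠ c := by decide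

section fail

variable {α : Type*} [DecidableEq α]

theorem prod_three {T : ℕ} (c : Fin 3) (u m : ℕ) :
    ∏ i : Fin 3 × Fin T, (if i.1 = c then u else m) = u ^ T * m ^ (2 * T) := by
  rw [Fintype.prod_prod_type]
  simp only [Finset.prod_const, Finset.card_univ, Fintype.card_fin]
  rw [Fin.prod_univ_three]
  have e : m ^ (2 * T) = m ^ T * m ^ T := by
    rw [two_mul, pow_add]
  rw [e]
  fin_cases c
  · simp
    ring
  · simp
    ring
  · simp
    ring

theorem count_fail_one (U : Finset α) (Nb : Finset α) {T : ℕ} (p : Fin 3 × Fin T) (x : α)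
    {d : ℕ} (hd : d ≤ (Nb ∩ U).card) :
    U.card * ((Fintype.piFinset fun _ : Fin 3 × Fin T => U).filter fun f =>
      f p = x ∧ ∀ j, f (p.1 + 1, j) ∉ Nb).card ≤ (U.card - d) ^ T * U.card ^ (2 * T) := by
  have h1 : ((Fintype.piFinset fun _ : Fin 3 × Fin T => U).filter fun f =>
      f p = x ∧ ∀ j, f (p.1 + 1, j) ∉ Nb) ⊆
      Fintype.piFinset fun i : Fin 3 × Fin T => if i = p then {x} else
        if i.1 = p.1 + 1 then U \ Nb else U := by
    intro f hf
    rw [Finset.mem_filter, Fintype.mem_piFinset] at hf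
    rw [Fintype.mem_piFinset]
    intro i
    by_cases hi : i = p
    · rw [if_pos hi, Finset.mem_singleton, hi]
      exact hf.2.1
    · rw [if_neg hi]
      by_cases hc : i.1 = p.1 + 1
      · rw [if_pos hc, Finset.mem_sdiff]
        refine ⟨hf.1 i, ?_⟩
        have h2 := hf.2.2 i.2
        rw [← hc] at h2
        exact h2
      · rw [if_neg hc]
        exact hf.1 i
  have h2 := Finset.card_le_card h1
  rw [Fintype.card_piFinset] at h2
  have h3 : U.card * ∏ i : Fin 3 × Fin T, (if i = p then {x} else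
        if i.1 = p.1 + 1 then U \ Nb else U).card =
      ∏ i : Fin 3 × Fin T, (if i.1 = p.1 + 1 then (U \ Nb).card else U.card) := by
    rw [← Finset.mul_prod_erase Finset.univ _ (Finset.mem_univ p),
      ← Finset.mul_prod_erase Finset.univ (fun i : Fin 3 × Fin T =>
        (if i.1 = p.1 + 1 then (U \ Nb).card else U.card)) (Finset.mem_univ p)]
    rw [if_pos rfl, Finset.card_singleton, one_mul, if_neg (fin3a p.1).symm]
    congr 1
    apply Finset.prod_congr rfl
    intro i hi
    rw [if_neg (Finset.ne_of_mem_erase hi)]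
    split_ifs <;> rfl
  have h4 : (U \ Nb).card ≤ U.card - d := by
    have h5 : (U \ Nb).card + (U ∩ Nb).card = U.card := Finset.card_sdiff_add_card_inter U Nb
    rw [Finset.inter_comm] at h5
    omega
  calc U.card * ((Fintype.piFinset fun _ : Fin 3 × Fin T => U).filter fun f =>
      f p = x ∧ ∀ j, f (p.1 + 1, j) ∉ Nb).card ≤ _ := Nat.mul_le_mul_left _ h2
    _ = _ := h3
    _ = (U \ Nb).card ^ T * U.card ^ (2 * T) := prod_three _ _ _
    _ ≤ _ := Nat.mul_le_mul_right _ (Nat.pow_le_pow_left h4 T)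

theorem count_fail (U : Finset α) (Nb : α → Finset α) {T : ℕ} (p : Fin 3 × Fin T)
    {d : ℕ} (hd : ∀ x ∈ U, d ≤ (Nb x ∩ U).card) :
    ((Fintype.piFinset fun _ : Fin 3 × Fin T => U).filter fun f =>
      ∀ j, f (p.1 + 1, j) ∉ Nb (f p)).card ≤ (U.card - d) ^ T * U.card ^ (2 * T) := by
  rcases Nat.eq_zero_or_pos U.card with h0 | h0
  · have h1 : ((Fintype.piFinset fun _ : Fin 3 × Fin T => U).filter fun f =>
        ∀ j, f (p.1 + 1, j) ∉ Nb (f p)) = ∅ := by
      rw [Finset.eq_empty_iff_forall_notMem]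
      intro f hf
      have h2 := Fintype.mem_piFinset.1 (Finset.mem_filter.1 hf).1 p
      rw [Finset.card_eq_zero.1 h0] at h2
      exact absurd h2 (Finset.notMem_empty _)
    rw [h1, Finset.card_empty]
    exact Nat.zero_le _
  have h1 : ((Fintype.piFinset fun _ : Fin 3 × Fin T => U).filter fun f =>
      ∀ j, f (p.1 + 1, j) ∉ Nb (f p)) ⊆ U.biUnion fun x =>
      ((Fintype.piFinset fun _ : Fin 3 × Fin T => U).filter fun f =>
        f p = x ∧ ∀ j, f (p.1 + 1, j) ∉ Nb x) := by
    intro f hf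
    rw [Finset.mem_filter] at hf
    rw [Finset.mem_biUnion]
    refine ⟨f p, (Fintype.mem_piFinset.1 hf.1) p, ?_⟩
    rw [Finset.mem_filter]
    exact ⟨hf.1, rfl, hf.2⟩
  have h2 := (Finset.card_le_card h1).trans Finset.card_biUnion_le
  have h3 := Nat.mul_le_mul_left U.card h2
  rw [Finset.mul_sum] at h3
  have h4 := h3.trans (Finset.sum_le_sum fun x hx => count_fail_one U (Nb x) p x (hd x hx))
  rw [Finset.sum_const, smul_eq_mul] at h4
  exact Nat.le_of_mul_le_mul_left h4 h0

end fail

variable {k : ℕ}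

open Classical in
/-- the good tuples -/
noncomputable def Good (a : Fin k → ℤ) (U : Finset (Fin k)) (Nb : Fin k → Finset (Fin k)) (T : ℕ) :
    Finset (Fin 3 × Fin T → Fin k) :=
  (Fintype.piFinset fun _ : Fin 3 × Fin T => U).filter fun f => Function.Injective f ∧
    (∀ p : Fin 3 × Fin T, ∃ j, f (p.1 + 1, j) ∈ Nb (f p)) ∧
    ∀ p q p' q' : Fin 3 × Fin T, q.1 = p.1 + 1 → q'.1 = p'.1 + 1 → p ≠ p' → q ≠ q' →
      a (f p) + ((f q : ℕ) : ℤ) ≠ a (f p') + ((f q' : ℕ) : ℤ)

theorem sample (a : Fin k → ℤ) (U : Finset (Fin k)) (Nb : Fin k → Finset (Fin k)) (T d : ℕ)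
    (hT : 0 < T) (hd : ∀ x ∈ U, d ≤ (Nb x ∩ U).card)
    (h1 : 4 * ((3 * T) ^ 2 + (3 * T) ^ 4) ≤ U.card)
    (h2 : 4 * (3 * T) * (U.card - d) ^ T ≤ U.card ^ T) :
    U.card ^ (3 * T) ≤ 2 * (Good a U Nb T).card := by
  classical
  set m := U.card with hm
  set Tp := Fintype.piFinset fun _ : Fin 3 × Fin T => U with hTp
  have hTpc : Tp.card = m ^ (3 * T) := by
    rw [hTp, Fintype.card_piFinset, Finset.prod_const, Finset.card_univ, Fintype.card_prod,
      Fintype.card_fin, Fintype.card_fin]
  have hι : Fintype.card (Fin 3 × Fin T) = 3 * T := by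
    rw [Fintype.card_prod, Fintype.card_fin, Fintype.card_fin]
  set B1 : Finset (Fin 3 × Fin T → Fin k) :=
    (Finset.univ : Finset ((Fin 3 × Fin T) × (Fin 3 × Fin T))).biUnion fun pq =>
      Tp.filter fun f => pq.1 ≠ pq.2 ∧ f pq.1 = f pq.2 with hB1
  set B2 : Finset (Fin 3 × Fin T → Fin k) :=
    (Finset.univ : Finset (((Fin 3 × Fin T) × (Fin 3 × Fin T)) ×
      ((Fin 3 × Fin T) × (Fin 3 × Fin T)))).biUnion fun t =>
      Tp.filter fun f => (t.1.2.1 = t.1.1.1 + 1 ∧ t.2.2.1 = t.2.1.1 + 1 ∧ t.1.1 ≠ t.2.1 ∧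
        t.1.2 ≠ t.2.2) ∧ a (f t.1.1) + ((f t.1.2 : ℕ) : ℤ) =
          a (f t.2.1) + ((f t.2.2 : ℕ) : ℤ) with hB2
  set B3 : Finset (Fin 3 × Fin T → Fin k) :=
    (Finset.univ : Finset (Fin 3 × Fin T)).biUnion fun p =>
      Tp.filter fun f => ∀ j, f (p.1 + 1, j) ∉ Nb (f p) with hB3
  have hcov : Tp ⊆ Good a U Nb T ∪ (B1 ∪ (B2 ∪ B3)) := by
    intro f hf
    by_cases c1 : f ∈ B1
    · exact Finset.mem_union_right _ (Finset.mem_union_left _ c1)
    by_cases c2 : f ∈ B2
    · exact Finset.mem_union_right _ (Finset.mem_union_right _ (Finset.mem_union_left _ c2))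
    by_cases c3 : f ∈ B3
    · exact Finset.mem_union_right _ (Finset.mem_union_right _ (Finset.mem_union_right _ c3))
    apply Finset.mem_union_left
    unfold Good
    rw [Finset.mem_filter]
    refine ⟨hf, ?_, ?_, ?_⟩
    · intro p q hpq
      by_contra hne
      apply c1
      rw [hB1, Finset.mem_biUnion]
      exact ⟨(p, q), Finset.mem_univ _, Finset.mem_filter.2 ⟨hf, hne, hpq⟩⟩
    · intro p
      by_contra hcon
      push Not at hcon
      apply c3
      rw [hB3, Finset.mem_biUnion]
      exact ⟨p, Finset.mem_univ _, Finset.mem_filter.2 ⟨hf, hcon⟩⟩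
    · intro p q p' q' e1 e2 e3 e4 heq
      apply c2
      rw [hB2, Finset.mem_biUnion]
      exact ⟨((p, q), (p', q')), Finset.mem_univ _,
        Finset.mem_filter.2 ⟨hf, ⟨e1, e2, e3, e4⟩, heq⟩⟩
  have hmem : ∀ f ∈ Tp, ∀ i, f i ∈ U := fun f hf i => Fintype.mem_piFinset.1 hf i
  have hc1 : B1.card ≤ (3 * T) ^ 2 * m ^ (3 * T - 1) := by
    refine (Finset.card_biUnion_le_card_mul _ _ (m ^ (3 * T - 1)) ?_).trans (le_of_eq ?_)
    · intro pq _
      have := count_det U {pq.2} (Tp.filter fun f => pq.1 ≠ pq.2 ∧ f pq.1 = f pq.2)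
        (fun f hf => hmem f (Finset.mem_filter.1 hf).1) (by
          intro f hf g hg hfg
          obtain ⟨_, hne, h3⟩ := Finset.mem_filter.1 hf
          obtain ⟨_, _, h4⟩ := Finset.mem_filter.1 hg
          funext i
          by_cases hi : i = pq.2
          · rw [hi, ← h3, ← h4]
            exact hfg _ (by rw [Finset.mem_singleton]; exact hne)
          · exact hfg _ (by rw [Finset.mem_singleton]; exact hi))
      rw [hι, Finset.card_singleton] at this
      exact this
    · rw [Finset.card_univ, Fintype.card_prod, hι, sq]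
  have hc2 : B2.card ≤ (3 * T) ^ 4 * m ^ (3 * T - 1) := by
    refine (Finset.card_biUnion_le_card_mul _ _ (m ^ (3 * T - 1)) ?_).trans (le_of_eq ?_)
    · rintro ⟨⟨p, q⟩, ⟨p', q'⟩⟩ _
      show (Tp.filter fun f => (q.1 = p.1 + 1 ∧ q'.1 = p'.1 + 1 ∧ p ≠ p' ∧ q ≠ q') ∧
        a (f p) + ((f q : ℕ) : ℤ) = a (f p') + ((f q' : ℕ) : ℤ)).card ≤ _
      by_cases hcase : q' = p
      · have := count_det U {q} (Tp.filter fun f => (q.1 = p.1 + 1 ∧ q'.1 = p'.1 + 1 ∧ p ≠ p' ∧
          q ≠ q') ∧ a (f p) + ((f q : ℕ) : ℤ) = a (f p') + ((f q' : ℕ) : ℤ))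
          (fun f hf => hmem f (Finset.mem_filter.1 hf).1) (by
            intro f hf g hg hfg
            obtain ⟨_, ⟨e1, e2, e3, e4⟩, h3⟩ := Finset.mem_filter.1 hf
            obtain ⟨_, _, h4⟩ := Finset.mem_filter.1 hg
            have n1 : p ≠ q := by
              intro h
              rw [h] at e1
              exact fin3a _ e1.symm
            have n2 : p' ≠ q := by
              intro h
              rw [hcase] at e2
              rw [e2, ← h] at e1
              exact fin3b _ e1.symm
            have g1 := hfg p (by rw [Finset.mem_singleton]; exact n1)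
            have g2 := hfg p' (by rw [Finset.mem_singleton]; exact n2)
            have g3 := hfg q' (by rw [Finset.mem_singleton]; exact e4.symm)
            rw [g1, g2, g3] at h3
            have g4 : ((f q : ℕ) : ℤ) = ((g q : ℕ) : ℤ) := by
              linarith
            funext i
            by_cases hi : i = q
            · rw [hi]
              exact Fin.ext (by exact_mod_cast g4)
            · exact hfg _ (by rw [Finset.mem_singleton]; exact hi))
        rw [hι, Finset.card_singleton] at this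
        exact this
      · have := count_det U {q'} (Tp.filter fun f => (q.1 = p.1 + 1 ∧ q'.1 = p'.1 + 1 ∧ p ≠ p' ∧
          q ≠ q') ∧ a (f p) + ((f q : ℕ) : ℤ) = a (f p') + ((f q' : ℕ) : ℤ))
          (fun f hf => hmem f (Finset.mem_filter.1 hf).1) (by
            intro f hf g hg hfg
            obtain ⟨_, ⟨e1, e2, e3, e4⟩, h3⟩ := Finset.mem_filter.1 hf
            obtain ⟨_, _, h4⟩ := Finset.mem_filter.1 hg
            have n2 : p' ≠ q' := by
              intro h
              rw [h] at e2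
              exact fin3a _ e2.symm
            have g1 := hfg p (by rw [Finset.mem_singleton]; exact fun h => hcase h.symm)
            have g2 := hfg p' (by rw [Finset.mem_singleton]; exact n2)
            have g3 := hfg q (by rw [Finset.mem_singleton]; exact e4)
            rw [g1, g2, g3] at h3
            have g4 : ((f q' : ℕ) : ℤ) = ((g q' : ℕ) : ℤ) := by
              linarith
            funext i
            by_cases hi : i = q'
            · rw [hi]
              exact Fin.ext (by exact_mod_cast g4)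
            · exact hfg _ (by rw [Finset.mem_singleton]; exact hi))
        rw [hι, Finset.card_singleton] at this
        exact this
    · rw [Finset.card_univ, Fintype.card_prod, Fintype.card_prod, hι]
      ring
  have hc3 : B3.card ≤ 3 * T * ((m - d) ^ T * m ^ (2 * T)) := by
    refine (Finset.card_biUnion_le_card_mul _ _ ((m - d) ^ T * m ^ (2 * T)) ?_).trans (le_of_eq ?_)
    · intro p _
      exact count_fail U Nb p hd
    · rw [Finset.card_univ, hι]
  have hall := (Finset.card_le_card hcov).trans ((Finset.card_union_le _ _).trans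
    (Nat.add_le_add_left ((Finset.card_union_le _ _).trans
      (Nat.add_le_add_left (Finset.card_union_le _ _) _)) _))
  rw [hTpc] at hall
  have hM : m * m ^ (3 * T - 1) = m ^ (3 * T) := by
    rw [← pow_succ']
    congr 1
    omega
  have e1 : 4 * (((3 * T) ^ 2 + (3 * T) ^ 4) * m ^ (3 * T - 1)) ≤ m ^ (3 * T) := by
    rw [← hM, ← mul_assoc]
    exact Nat.mul_le_mul_right _ h1
  have e2 : 4 * (3 * T * ((m - d) ^ T * m ^ (2 * T))) ≤ m ^ (3 * T) := by
    calc 4 * (3 * T * ((m - d) ^ T * m ^ (2 * T))) = 4 * (3 * T) * (m - d) ^ T * m ^ (2 * T) := by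
          ring
      _ ≤ m ^ T * m ^ (2 * T) := Nat.mul_le_mul_right _ h2
      _ = m ^ (3 * T) := by
          rw [← pow_add]
          congr 1
          ring
  have e3 : ((3 * T) ^ 2 + (3 * T) ^ 4) * m ^ (3 * T - 1) =
      (3 * T) ^ 2 * m ^ (3 * T - 1) + (3 * T) ^ 4 * m ^ (3 * T - 1) := by ring
  rw [e3] at e1
  generalize (3 * T) ^ 2 * m ^ (3 * T - 1) = A1 at *
  generalize (3 * T) ^ 4 * m ^ (3 * T - 1) = A2 at *
  generalize 3 * T * ((m - d) ^ T * m ^ (2 * T)) = A3 at *
  generalize m ^ (3 * T) = A4 at *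
  omega

end Pool.Agent.KSLow
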