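import Pool.Agent.KSLow.B
import Pool.Agent.KSLow.C

/-!
MP_31c4fb_co, lower bound for N(0,k), module D: cycles from good tuples, and their number.
-/

namespace Pool.Agent.KSLow

open Finset

theorem exists_periodic {ι : Type*} [Finite ι] [Nonempty ι] (φ : ι → ι) :
    ∃ p, p ∈ Function.periodicPts φ := by
  obtain ⟨p0⟩ := ‹Nonempty ι›
  have h : ¬ Function.Injective fun n : ℕ => φ^[n] p0 := not_injective_infinite_finite _
  unfold Function.Injective at h
  push Not at h
  obtain ⟨m, n, hmn, hne⟩ := h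
  rcases lt_or_gt_of_ne hne with hlt | hlt
  · refine ⟨φ^[m] p0, n - m, Nat.sub_pos_of_lt hlt, ?_⟩
    show φ^[n - m] (φ^[m] p0) = φ^[m] p0
    rw [← Function.iterate_add_apply, Nat.sub_add_cancel hlt.le]
    exact hmn.symm
  · refine ⟨φ^[n] p0, m - n, Nat.sub_pos_of_lt hlt, ?_⟩
    show φ^[m - n] (φ^[n] p0) = φ^[n] p0
    rw [← Function.iterate_add_apply, Nat.sub_add_cancel hlt.le]
    exact hmn

/-- a cycle inside a functional graph without fixed points, on an embedded index set -/
theorem exists_cycle {ι α : Type*} [Fintype ι] [Nonempty ι] [DecidableEq ι] [Fintype α]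
    [DecidableEq α] (φ : ι → ι) (hφ : ∀ p, φ p ≠ p) (f : ι → α) (hf : Function.Injective f) :
    ∃ e : Equiv.Perm α, e.IsCycle ∧ ∀ x, e x ≠ x → ∃ q, x = f q ∧ e x = f (φ q) := by
  classical
  obtain ⟨p1, hp1⟩ := exists_periodic φ
  have hbij := Function.bijOn_periodicPts φ
  set G : ι → ι := fun p => if p ∈ Function.periodicPts φ then φ p else p with hG
  have hGinj : Function.Injective G := by
    intro p q hpq
    rw [hG] at hpq
    simp only at hpq
    split_ifs at hpq with h1 h2 h2
    · exact hbij.injOn h1 h2 hpq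
    · exact absurd (hpq ▸ hbij.mapsTo h1) h2
    · exact absurd (hpq ▸ hbij.mapsTo h2) h1
    · exact hpq
  set g : Equiv.Perm ι := Equiv.ofBijective G (Finite.injective_iff_bijective.1 hGinj) with hg
  have hgG : ∀ p, g p = G p := fun p => rfl
  have hgper : ∀ p, g p ≠ p → g p = φ p := by
    intro p hp
    rw [hgG, hG] at hp ⊢
    simp only at hp ⊢
    split_ifs at hp ⊢ with h1
    · rfl
    · exact absurd rfl hp
  have hgp1 : g p1 ≠ p1 := by
    rw [hgG, hG]
    simp only
    rw [if_pos hp1]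
    exact hφ p1
  set c : Equiv.Perm ι := g.cycleOf p1 with hc
  have hcc : c.IsCycle := g.isCycle_cycleOf hgp1
  have hcg : ∀ q, c q ≠ q → c q = φ q := by
    intro q hq
    rw [hc, Equiv.Perm.cycleOf_apply] at hq ⊢
    split_ifs at hq ⊢ with h1
    · exact hgper q hq
    · exact absurd rfl hq
  refine ⟨c.extendDomain (Equiv.ofInjective f hf), hcc.extendDomain _, ?_⟩
  intro x hx
  by_cases hr : x ∈ Set.range f
  · obtain ⟨q, hq⟩ := hr
    have h1 : (c.extendDomain (Equiv.ofInjective f hf)) (f q) = f (c q) := by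
      have := Equiv.Perm.extendDomain_apply_image c (Equiv.ofInjective f hf) q
      rwa [Equiv.ofInjective_apply, Equiv.ofInjective_apply] at this
    refine ⟨q, hq.symm, ?_⟩
    rw [← hq] at hx ⊢
    rw [h1] at hx ⊢
    rw [hcg q (fun h => hx (congrArg f h))]
  · exact absurd (Equiv.Perm.extendDomain_apply_not_subtype c (Equiv.ofInjective f hf) hr) hx

variable {k : ℕ}

/-- the fixed points of `π` -/
def Fx (π : Equiv.Perm (Fin k)) : Finset (Fin k) := Finset.univ.filter fun x => π x = x

open Classical in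
/-- the good cycles for `π` -/
noncomputable def Gc (a : Fin k → ℤ) (π : Equiv.Perm (Fin k)) (T : ℕ) :
    Finset (Equiv.Perm (Fin k)) :=
  Finset.univ.filter fun e => e.IsCycle ∧ e.support.card ≤ 3 * T ∧ π.Disjoint e ∧
    Valid a (π * e⁻¹)

theorem cycle_of_good {a : Fin k → ℤ} {π : Equiv.Perm (Fin k)} (hπ : Valid a π) {T : ℕ}
    (hT : 0 < T) {f : Fin 3 × Fin T → Fin k} (hf : f ∈ Good a (Fx π) (Al a π) T) :
    ∃ e ∈ Gc a π T, ∀ x, e x ≠ x → ∃ q, x = f q := by
  classical
  unfold Good at hf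
  obtain ⟨hmem, hinj, harc, hsum⟩ := Finset.mem_filter.1 hf
  have hfix : ∀ p, π (f p) = f p := fun p =>
    (Finset.mem_filter.1 (Fintype.mem_piFinset.1 hmem p)).2
  choose j hj using harc
  set φ : Fin 3 × Fin T → Fin 3 × Fin T := fun p => (p.1 + 1, j p) with hφ
  have hφne : ∀ p, φ p ≠ p := by
    intro p h
    exact fin3a p.1 (congrArg Prod.fst h)
  haveI : Nonempty (Fin 3 × Fin T) := ⟨(0, ⟨0, hT⟩)⟩
  obtain ⟨e, he, he2⟩ := exists_cycle φ hφne f hinj
  have hkey : ∀ i, e⁻¹ i = i ∨ ∃ q, i = f (φ q) ∧ e⁻¹ i = f q := by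
    intro i
    by_cases hi : e⁻¹ i = i
    · exact Or.inl hi
    · right
      have h1 : e (e⁻¹ i) = i := by simp
      obtain ⟨q, hq1, hq2⟩ := he2 (e⁻¹ i) (by rw [h1]; exact fun h => hi h.symm)
      exact ⟨q, h1.symm.trans hq2, hq1⟩
  refine ⟨e, ?_, fun x hx => ?_⟩
  · unfold Gc
    rw [Finset.mem_filter]
    refine ⟨Finset.mem_univ _, he, ?_, ?_, ?_⟩
    · have h1 : e.support ⊆ (Finset.univ : Finset (Fin 3 × Fin T)).image f := by
        intro x hx
        obtain ⟨q, hq, _⟩ := he2 x (Equiv.Perm.mem_support.1 hx)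
        exact Finset.mem_image.2 ⟨q, Finset.mem_univ _, hq.symm⟩
      refine (Finset.card_le_card h1).trans (Finset.card_image_le.trans (le_of_eq ?_))
      rw [Finset.card_univ, Fintype.card_prod, Fintype.card_fin, Fintype.card_fin]
    · intro x
      by_cases hx : e x = x
      · exact Or.inr hx
      · left
        obtain ⟨q, hq, _⟩ := he2 x hx
        rw [hq]
        exact hfix q
    · intro i i' hii'
      have hii : a (π (e⁻¹ i)) + ((i : ℕ) : ℤ) = a (π (e⁻¹ i')) + ((i' : ℕ) : ℤ) := hii'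
      rcases hkey i with h1 | ⟨q, h1, h2⟩ <;> rcases hkey i' with h3 | ⟨q', h3, h4⟩
      · rw [h1, h3] at hii
        exact hπ hii
      · rw [h1, h4, hfix, h3] at hii
        exact absurd hii ((mem_Al.1 (hj q')).2 i)
      · rw [h3, h2, hfix, h1] at hii
        exact absurd hii.symm ((mem_Al.1 (hj q)).2 i')
      · rw [h2, h4, hfix, hfix] at hii
        by_cases hq : q = q'
        · rw [h1, h3, hq]
        · by_cases hφq : φ q = φ q'
          · rw [h1, h3, hφq]
          · rw [h1, h3] at hii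
            exact absurd hii (hsum q (φ q) q' (φ q') rfl rfl hq hφq)
  · obtain ⟨q, hq, _⟩ := he2 x hx
    exact ⟨q, hq⟩

theorem many_cycles {a : Fin k → ℤ} {π : Equiv.Perm (Fin k)} (hπ : Valid a π) {T d : ℕ}
    (hT : 0 < T) (hd : ∀ x ∈ Fx π, d ≤ (Al a π x).card)
    (h1 : 4 * ((3 * T) ^ 2 + (3 * T) ^ 4) ≤ (Fx π).card)
    (h2 : 4 * (3 * T) * ((Fx π).card - d) ^ T ≤ (Fx π).card ^ T) :
    (Fx π).card ^ 2 ≤ 18 * T ^ 2 * (Gc a π T).card := by
  classical
  have hAl : ∀ x, Al a π x ∩ Fx π = Al a π x := by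
    intro x
    apply Finset.inter_eq_left.2
    intro y hy
    exact Finset.mem_filter.2 ⟨Finset.mem_univ _, (mem_Al.1 hy).1⟩
  have hs := sample a (Fx π) (Al a π) T d hT (fun x hx => by rw [hAl]; exact hd x hx) h1 h2
  set m := (Fx π).card with hm
  have hex : ∀ f, ∃ e, f ∈ Good a (Fx π) (Al a π) T → e ∈ Gc a π T ∧
      ∀ x, e x ≠ x → ∃ q, x = f q := by
    intro f
    by_cases hf : f ∈ Good a (Fx π) (Al a π) T
    · obtain ⟨e, h3, h4⟩ := cycle_of_good hπ hT hf
      exact ⟨e, fun _ => ⟨h3, h4⟩⟩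
    · exact ⟨1, fun h => absurd h hf⟩
  choose Φ hΦ using hex
  have hfib := Finset.card_le_mul_card_image (s := Good a (Fx π) (Al a π) T) (f := Φ)
    ((3 * T) ^ 2 * m ^ (3 * T - 2)) (by
      intro e he
      obtain ⟨f0, hf0, he0⟩ := Finset.mem_image.1 he
      have heG := (hΦ f0 hf0).1
      rw [he0] at heG
      unfold Gc at heG
      obtain ⟨u, hu, _⟩ := (Finset.mem_filter.1 heG).2.1
      have hv : e (e u) ≠ e u := fun h => hu (e.injective h)
      have hsub : ((Good a (Fx π) (Al a π) T).filter fun f => Φ f = e) ⊆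
          (Finset.univ : Finset ((Fin 3 × Fin T) × (Fin 3 × Fin T))).biUnion fun pq =>
            (Fintype.piFinset fun _ : Fin 3 × Fin T => Fx π).filter fun f =>
              pq.1 ≠ pq.2 ∧ f pq.1 = u ∧ f pq.2 = e u := by
        intro f hf
        obtain ⟨hfG, hfe⟩ := Finset.mem_filter.1 hf
        have h3 := (hΦ f hfG).2
        rw [hfe] at h3
        obtain ⟨p, hp⟩ := h3 u hu
        obtain ⟨q, hq⟩ := h3 (e u) hv
        rw [Finset.mem_biUnion]
        refine ⟨(p, q), Finset.mem_univ _, ?_⟩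
        rw [Finset.mem_filter]
        unfold Good at hfG
        refine ⟨(Finset.mem_filter.1 hfG).1, ?_, hp.symm, hq.symm⟩
        intro h
        have h4 : p = q := h
        rw [h4] at hp
        exact hu (hq.trans hp.symm)
      refine (Finset.card_le_card hsub).trans
        ((Finset.card_biUnion_le_card_mul _ _ (m ^ (3 * T - 2)) ?_).trans (le_of_eq ?_))
      · intro pq _
        by_cases hpq : pq.1 = pq.2
        · have h5 : ((Fintype.piFinset fun _ : Fin 3 × Fin T => Fx π).filter fun f =>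
              pq.1 ≠ pq.2 ∧ f pq.1 = u ∧ f pq.2 = e u) = ∅ := by
            rw [Finset.eq_empty_iff_forall_notMem]
            intro f hf
            exact (Finset.mem_filter.1 hf).2.1 hpq
          rw [h5, Finset.card_empty]
          exact Nat.zero_le _
        · have := count_det (Fx π) {pq.1, pq.2}
            ((Fintype.piFinset fun _ : Fin 3 × Fin T => Fx π).filter fun f =>
              pq.1 ≠ pq.2 ∧ f pq.1 = u ∧ f pq.2 = e u)
            (fun f hf i => Fintype.mem_piFinset.1 (Finset.mem_filter.1 hf).1 i) (by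
              intro f hf g hg hfg
              obtain ⟨_, _, h3, h4⟩ := Finset.mem_filter.1 hf
              obtain ⟨_, _, h5, h6⟩ := Finset.mem_filter.1 hg
              funext i
              by_cases hi : i = pq.1
              · rw [hi, h3, h5]
              · by_cases hi2 : i = pq.2
                · rw [hi2, h4, h6]
                · apply hfg
                  rw [Finset.mem_insert, Finset.mem_singleton]
                  push Not
                  exact ⟨hi, hi2⟩)
          rw [Fintype.card_prod, Fintype.card_fin, Fintype.card_fin, Finset.card_pair hpq] at this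
          exact this
      · rw [Finset.card_univ, Fintype.card_prod, Fintype.card_prod, Fintype.card_fin,
          Fintype.card_fin, sq])
  have himg : (Finset.image Φ (Good a (Fx π) (Al a π) T)).card ≤ (Gc a π T).card := by
    apply Finset.card_le_card
    intro e he
    obtain ⟨f, hf, hfe⟩ := Finset.mem_image.1 he
    rw [← hfe]
    exact (hΦ f hf).1
  have hmpos : 0 < m := by
    have : 0 < 4 * ((3 * T) ^ 2 + (3 * T) ^ 4) := by positivity
    omega
  have hpow : m ^ (3 * T) = m ^ 2 * m ^ (3 * T - 2) := by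
    rw [← pow_add]
    congr 1
    omega
  have h3 : m ^ 2 * m ^ (3 * T - 2) ≤ (18 * T ^ 2 * (Gc a π T).card) * m ^ (3 * T - 2) := by
    rw [← hpow]
    calc m ^ (3 * T) ≤ 2 * (Good a (Fx π) (Al a π) T).card := hs
      _ ≤ 2 * ((3 * T) ^ 2 * m ^ (3 * T - 2) * (Finset.image Φ (Good a (Fx π) (Al a π) T)).card) :=
          Nat.mul_le_mul_left _ hfib
      _ ≤ 2 * ((3 * T) ^ 2 * m ^ (3 * T - 2) * (Gc a π T).card) :=
          Nat.mul_le_mul_left _ (Nat.mul_le_mul_left _ himg)
      _ = _ := by ring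
  exact Nat.le_of_mul_le_mul_right h3 (pow_pos hmpos _)

end Pool.Agent.KSLow
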