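import Pool.Agent.KSLow.D

/-!
MP_31c4fb_co, lower bound for N(0,k), module E: induction over the number of cycles.
-/

namespace Pool.Agent.KSLow

open Finset

variable {k : ℕ}

open Classical in
/-- valid permutations with `s` cycles of length at most `3 T` -/
noncomputable def Cl (a : Fin k → ℤ) (T s : ℕ) : Finset (Equiv.Perm (Fin k)) :=
  Finset.univ.filter fun π => Valid a π ∧ π.cycleFactorsFinset.card = s ∧
    π.support.card ≤ 3 * T * s

theorem step (a : Fin k → ℤ) (T s q n : ℕ) (h : ∀ π ∈ Cl a T s, n ≤ q * (Gc a π T).card) :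
    (Cl a T s).card * n ≤ q * ((s + 1) * (Cl a T (s + 1)).card) := by
  classical
  have h1 : ((Cl a T s).sigma fun π => Gc a π T).card ≤
      ((Cl a T (s + 1)).sigma fun π => π.cycleFactorsFinset).card := by
    apply Finset.card_le_card_of_injOn (fun x => ⟨x.1 * x.2⁻¹, x.2⁻¹⟩)
    · rintro ⟨π, e⟩ hx
      rw [Finset.mem_coe, Finset.mem_sigma] at hx
      obtain ⟨hx1, hx2⟩ := hx
      have hx1' : π ∈ Cl a T s := hx1
      have hx2' : e ∈ Gc a π T := hx2
      unfold Cl at hx1'
      unfold Gc at hx2'
      obtain ⟨_, hv, hc, hs⟩ := Finset.mem_filter.1 hx1'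
      obtain ⟨_, hcy, hes, hdis, hval⟩ := Finset.mem_filter.1 hx2'
      have hdis' : π.Disjoint e⁻¹ := hdis.inv_right
      have hun := hdis'.cycleFactorsFinset_mul_eq_union
      have hsing : (e⁻¹).cycleFactorsFinset = {e⁻¹} :=
        Equiv.Perm.cycleFactorsFinset_eq_singleton_self_iff.2 hcy.inv
      rw [Finset.mem_coe, Finset.mem_sigma]
      refine ⟨?_, ?_⟩
      · show π * e⁻¹ ∈ Cl a T (s + 1)
        unfold Cl
        rw [Finset.mem_filter]
        refine ⟨Finset.mem_univ _, hval, ?_, ?_⟩
        · rw [hun, Finset.card_union_of_disjoint hdis'.disjoint_cycleFactorsFinset, hsing,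
            Finset.card_singleton, hc]
        · rw [hdis'.card_support_mul, Equiv.Perm.support_inv]
          have : 3 * T * (s + 1) = 3 * T * s + 3 * T := by ring
          omega
      · show e⁻¹ ∈ (π * e⁻¹).cycleFactorsFinset
        rw [hun, hsing]
        exact Finset.mem_union_right _ (Finset.mem_singleton_self _)
    · rintro ⟨π, e⟩ _ ⟨π', e'⟩ _ heq
      have h2 := (Sigma.mk.inj_iff.1 heq)
      have h3 : e⁻¹ = e'⁻¹ := eq_of_heq h2.2
      have h4 : e = e' := inv_injective h3
      have h5 : π * e⁻¹ = π' * e'⁻¹ := h2.1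
      rw [h3] at h5
      have h6 : π = π' := mul_right_cancel h5
      rw [h4, h6]
  rw [Finset.card_sigma, Finset.card_sigma] at h1
  have h2 : ∑ π ∈ Cl a T (s + 1), π.cycleFactorsFinset.card = (s + 1) * (Cl a T (s + 1)).card := by
    rw [Finset.sum_congr rfl (g := fun _ => s + 1)]
    · rw [Finset.sum_const, smul_eq_mul, mul_comm]
    · intro π hπ
      unfold Cl at hπ
      exact (Finset.mem_filter.1 hπ).2.2.1
  rw [h2] at h1
  calc (Cl a T s).card * n = ∑ _π ∈ Cl a T s, n := by rw [Finset.sum_const, smul_eq_mul]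
    _ ≤ ∑ π ∈ Cl a T s, q * (Gc a π T).card := Finset.sum_le_sum h
    _ = q * ∑ π ∈ Cl a T s, (Gc a π T).card := by rw [Finset.mul_sum]
    _ ≤ _ := Nat.mul_le_mul_left _ h1

theorem count_valid {a : Fin k → ℤ} (ha : Monotone a) {K r T t : ℕ} (hK : 2 * K ≤ k)
    (hr1 : r ≤ ((Finset.univ.filter fun i : Fin k => (i : ℕ) < K).image a).card)
    (hr2 : r ≤ ((Finset.univ.filter fun i : Fin k => k - K ≤ (i : ℕ)).image a).card)
    (hT : 0 < T) (h3 : 6 * T * t ≤ k) (h1 : 8 * ((3 * T) ^ 2 + (3 * T) ^ 4) ≤ k)
    (h2 : ∀ m, m ≤ k → 4 * (3 * T) * (m - (r / 2 - 2 * (3 * T * t))) ^ T ≤ m ^ T) :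
    k ^ (2 * t) ≤ (VV a).card * ((72 * T ^ 2) ^ t * t.factorial) := by
  classical
  have hind : ∀ s, s ≤ t → k ^ (2 * s) ≤ (Cl a T s).card * ((72 * T ^ 2) ^ s * s.factorial) := by
    intro s
    induction s with
    | zero =>
      intro _
      have h4 : (1 : Equiv.Perm (Fin k)) ∈ Cl a T 0 := by
        unfold Cl
        rw [Finset.mem_filter]
        refine ⟨Finset.mem_univ _, valid_one ha, ?_, ?_⟩
        · rw [Equiv.Perm.cycleFactorsFinset_one, Finset.card_empty]
        · rw [Equiv.Perm.support_one, Finset.card_empty]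
          exact Nat.zero_le _
      have h5 : 0 < (Cl a T 0).card := Finset.card_pos.2 ⟨1, h4⟩
      simpa using h5
    | succ s ih =>
      intro hs
      have hst := step a T s (72 * T ^ 2) (k ^ 2) (by
        intro π hπ
        unfold Cl at hπ
        obtain ⟨_, hv, hc, hsup⟩ := Finset.mem_filter.1 hπ
        have hsup2 : π.support.card ≤ 3 * T * t :=
          hsup.trans (Nat.mul_le_mul_left _ (by omega))
        have hFx : (Fx π).card + π.support.card = k := by
          have h6 : π.support = Finset.univ.filter fun x => ¬ π x = x := by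
            ext x
            rw [Equiv.Perm.mem_support, Finset.mem_filter]
            exact ⟨fun h => ⟨Finset.mem_univ _, h⟩, fun h => h.2⟩
          rw [h6]
          unfold Fx
          rw [Finset.card_filter_add_card_filter_not, Finset.card_univ, Fintype.card_fin]
        have h3' : 2 * (3 * T * t) ≤ k := by
          calc 2 * (3 * T * t) = 6 * T * t := by ring
            _ ≤ k := h3
        have hm := many_cycles hv (T := T) (d := r / 2 - 2 * (3 * T * t)) hT (by
          intro x _
          have h7 := deg_le x (outside ha hK hr1 hr2 x) hsup2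
          omega) (by omega) (h2 _ (by omega))
        have h8 : k ≤ 2 * (Fx π).card := by omega
        calc k ^ 2 ≤ (2 * (Fx π).card) ^ 2 := Nat.pow_le_pow_left h8 2
          _ = 4 * (Fx π).card ^ 2 := by ring
          _ ≤ 4 * (18 * T ^ 2 * (Gc a π T).card) := Nat.mul_le_mul_left _ hm
          _ = _ := by ring)
      have ih' := ih (by omega)
      calc k ^ (2 * (s + 1)) = k ^ (2 * s) * k ^ 2 := by
            rw [← pow_add]
            congr 1
        _ ≤ ((Cl a T s).card * ((72 * T ^ 2) ^ s * s.factorial)) * k ^ 2 :=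
            Nat.mul_le_mul_right _ ih'
        _ = ((Cl a T s).card * k ^ 2) * ((72 * T ^ 2) ^ s * s.factorial) := by ring
        _ ≤ (72 * T ^ 2 * ((s + 1) * (Cl a T (s + 1)).card)) *
            ((72 * T ^ 2) ^ s * s.factorial) := Nat.mul_le_mul_right _ hst
        _ = _ := by
            rw [Nat.factorial_succ]
            ring
  refine (hind t le_rfl).trans (Nat.mul_le_mul_right _ (Finset.card_le_card ?_))
  intro π hπ
  unfold Cl at hπ
  exact mem_VV.2 (Finset.mem_filter.1 hπ).2.1

end Pool.Agent.KSLow
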