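import Pool.Agent.KSLow.E

/-!
MP_31c4fb_co, lower bound for N(0,k), module F: choice of the parameters.
-/

namespace Pool.Agent.KSLow

open Finset

variable {k : ℕ}

theorem card_first {K : ℕ} (hK : K ≤ k) :
    (Finset.univ.filter fun i : Fin k => (i : ℕ) < K).card = K := by
  have h1 : (Finset.univ.filter fun i : Fin k => (i : ℕ) < K) =
      (Finset.univ : Finset (Fin K)).map (Fin.castLEEmb hK) := by
    ext i
    rw [Finset.mem_filter, Finset.mem_map]
    constructor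
    · rintro ⟨_, h⟩
      exact ⟨⟨i, h⟩, Finset.mem_univ _, Fin.ext rfl⟩
    · rintro ⟨j, _, h⟩
      refine ⟨Finset.mem_univ _, ?_⟩
      rw [← h]
      exact j.2
  rw [h1, Finset.card_map, Finset.card_univ, Fintype.card_fin]

theorem card_last {K : ℕ} (hK : K ≤ k) :
    (Finset.univ.filter fun i : Fin k => k - K ≤ (i : ℕ)).card = K := by
  have h1 : (Finset.univ.filter fun i : Fin k => (i : ℕ) < k - K).card +
      (Finset.univ.filter fun i : Fin k => ¬ (i : ℕ) < k - K).card = k := by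
    rw [Finset.card_filter_add_card_filter_not, Finset.card_univ, Fintype.card_fin]
  rw [card_first (by omega)] at h1
  have h2 : (Finset.univ.filter fun i : Fin k => ¬ (i : ℕ) < k - K) =
      Finset.univ.filter fun i : Fin k => k - K ≤ (i : ℕ) := by
    apply Finset.filter_congr
    intro i _
    exact not_lt
  rw [h2] at h1
  omega

/-- the case of few values -/
theorem caseA (N K r x k : ℕ) (y : ℝ) (hy : 1 ≤ y) (h1 : K.factorial ≤ N * r ^ K)
    (hr : r * x ≤ k) (hr0 : 0 < r) (hK : k ≤ 4 * K) (hK0 : 0 < K)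
    (hx : 11 * y ^ 4 ≤ x) : y ^ k ≤ N := by
  have h2 : ((K : ℝ)) ^ K / K.factorial ≤ Real.exp K :=
    Real.pow_div_factorial_le_exp K (Nat.cast_nonneg _) K
  have hf : (0 : ℝ) < K.factorial := by exact_mod_cast Nat.factorial_pos K
  rw [div_le_iff₀ hf] at h2
  have h1' : (K.factorial : ℝ) ≤ N * (r : ℝ) ^ K := by exact_mod_cast h1
  have hr' : (0 : ℝ) < r := by exact_mod_cast hr0
  have hK' : (0 : ℝ) < K := by exact_mod_cast hK0
  have he : Real.exp 1 < 2.75 := lt_trans Real.exp_one_lt_d9 (by norm_num)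
  have h3 : (K : ℝ) ^ K ≤ (Real.exp 1 * r) ^ K * N := by
    calc (K : ℝ) ^ K ≤ Real.exp K * K.factorial := h2
      _ ≤ Real.exp K * (N * (r : ℝ) ^ K) := mul_le_mul_of_nonneg_left h1' (Real.exp_pos _).le
      _ = _ := by
          rw [mul_pow, ← Real.exp_nat_mul]
          ring_nf
  have h4 : y ^ 4 * (Real.exp 1 * r) ≤ K := by
    have e1 : (r : ℝ) * x ≤ k := by exact_mod_cast hr
    have e2 : (k : ℝ) ≤ 4 * K := by exact_mod_cast hK
    have e3 : (r : ℝ) * (11 * y ^ 4) ≤ r * x := mul_le_mul_of_nonneg_left hx hr'.le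
    have e4 : 0 ≤ y ^ 4 * r := by positivity
    have e5 : y ^ 4 * r * Real.exp 1 ≤ y ^ 4 * r * 2.75 := mul_le_mul_of_nonneg_left he.le e4
    nlinarith
  have h5 : (y ^ 4) ^ K * (Real.exp 1 * r) ^ K ≤ (Real.exp 1 * r) ^ K * N := by
    rw [← mul_pow]
    exact (pow_le_pow_left₀ (by positivity) h4 K).trans h3
  have h6 : 0 < (Real.exp 1 * r) ^ K := by positivity
  have h7 : (y ^ 4) ^ K ≤ N := by
    rw [mul_comm] at h5
    exact le_of_mul_le_mul_left h5 h6
  calc y ^ k ≤ y ^ (4 * K) := pow_le_pow_right₀ hy hK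
    _ = (y ^ 4) ^ K := by rw [pow_mul]
    _ ≤ N := h7

/-- the failure probability -/
theorem fail_small (x k d m : ℕ) (hx : 300 ≤ x) (hk : 0 < k) (hd : k ≤ 4 * x * d) (hm : m ≤ k) :
    4 * (3 * x ^ 2) * (m - d) ^ (x ^ 2) ≤ m ^ (x ^ 2) := by
  rcases le_or_gt m d with h | h
  · rw [Nat.sub_eq_zero_of_le h, zero_pow (by positivity), mul_zero]
    exact Nat.zero_le _
  · have hx' : (300 : ℝ) ≤ x := by exact_mod_cast hx
    have hk' : (0 : ℝ) < k := by exact_mod_cast hk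
    have hm' : (m : ℝ) ≤ k := by exact_mod_cast hm
    have hm0 : (0 : ℝ) < m := by
      have : 0 < m := by omega
      exact_mod_cast this
    have h1 : ((m - d : ℕ) : ℝ) ≤ m * Real.exp (-(d / k : ℝ)) := by
      rw [Nat.cast_sub h.le]
      have e1 : (1 : ℝ) - d / k ≤ Real.exp (-(d / k : ℝ)) := by
        have := Real.add_one_le_exp (-(d / k : ℝ))
        linarith
      have e2 : (m : ℝ) * (1 - d / k) ≤ m * Real.exp (-(d / k : ℝ)) :=
        mul_le_mul_of_nonneg_left e1 hm0.le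
      have e3 : (m : ℝ) * (d / k) ≤ d := by
        rw [mul_div_assoc', div_le_iff₀ hk', mul_comm]
        exact mul_le_mul_of_nonneg_left hm' (Nat.cast_nonneg _)
      linarith
    have h2 : ((m - d : ℕ) : ℝ) ^ (x ^ 2) ≤ (m : ℝ) ^ (x ^ 2) * Real.exp (-(x / 4 : ℝ)) := by
      refine (pow_le_pow_left₀ (Nat.cast_nonneg _) h1 _).trans ?_
      rw [mul_pow, ← Real.exp_nat_mul]
      refine mul_le_mul_of_nonneg_left (Real.exp_le_exp.2 ?_) (by positivity)
      have e1 : (k : ℝ) ≤ 4 * x * d := by exact_mod_cast hd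
      have e2 : (1 : ℝ) / (4 * x) ≤ d / k := by
        rw [div_le_div_iff₀ (by positivity) hk']
        linarith
      have e3 : ((x ^ 2 : ℕ) : ℝ) = (x : ℝ) ^ 2 := by rw [Nat.cast_pow]
      rw [e3]
      have e4 : (x : ℝ) ^ 2 * (1 / (4 * x)) ≤ (x : ℝ) ^ 2 * (d / k) :=
        mul_le_mul_of_nonneg_left e2 (by positivity)
      have e5 : (x : ℝ) ^ 2 * (1 / (4 * x)) = x / 4 := by
        field_simp
      rw [e5] at e4
      linarith
    have h3 : 12 * (x : ℝ) ^ 2 * Real.exp (-(x / 4 : ℝ)) ≤ 1 := by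
      have e1 := Real.pow_div_factorial_le_exp (x / 4 : ℝ) (by positivity) 4
      have e2 : ((Nat.factorial 4 : ℕ) : ℝ) = 24 := by norm_num [Nat.factorial]
      rw [e2] at e1
      rw [Real.exp_neg, ← div_eq_mul_inv, div_le_one (Real.exp_pos _)]
      refine le_trans ?_ e1
      have e3 : (90000 : ℝ) ≤ (x : ℝ) ^ 2 := by nlinarith
      have e4 : (x : ℝ) ^ 2 * 90000 ≤ (x : ℝ) ^ 2 * (x : ℝ) ^ 2 :=
        mul_le_mul_of_nonneg_left e3 (by positivity)
      have e5 : (x / 4 : ℝ) ^ 4 / 24 = (x : ℝ) ^ 2 * (x : ℝ) ^ 2 / 6144 := by ring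
      rw [e5]
      linarith
    have h4 : (4 * (3 * (x : ℝ) ^ 2)) * ((m - d : ℕ) : ℝ) ^ (x ^ 2) ≤ (m : ℝ) ^ (x ^ 2) := by
      calc (4 * (3 * (x : ℝ) ^ 2)) * ((m - d : ℕ) : ℝ) ^ (x ^ 2)
          ≤ (4 * (3 * (x : ℝ) ^ 2)) * ((m : ℝ) ^ (x ^ 2) * Real.exp (-(x / 4 : ℝ))) :=
            mul_le_mul_of_nonneg_left h2 (by positivity)
        _ = (m : ℝ) ^ (x ^ 2) * (12 * (x : ℝ) ^ 2 * Real.exp (-(x / 4 : ℝ))) := by ring
        _ ≤ (m : ℝ) ^ (x ^ 2) * 1 := mul_le_mul_of_nonneg_left h3 (by positivity)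
        _ = _ := mul_one _
    exact_mod_cast h4

/-- the case of many values -/
theorem caseB (N x k t : ℕ) (y : ℝ) (hy : 12 ≤ y) (hk : Real.exp (y ^ 20) = k)
    (hx : (x : ℝ) ≤ y ^ 5) (hx0 : 0 < x) (ht : 96 * x ^ 3 * t ≤ k)
    (ht2 : k ≤ 100 * x ^ 3 * t) (h : k ^ (2 * t) ≤ N * ((72 * (x ^ 2) ^ 2) ^ t * t.factorial)) :
    y ^ k ≤ N := by
  have hx' : (0 : ℝ) < x := by exact_mod_cast hx0
  have hk' : (0 : ℝ) < k := by
    rw [← hk]
    exact Real.exp_pos _
  have hy0 : (0 : ℝ) < y := by linarith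
  have htpos : 0 < t := by
    by_contra hc
    have : t = 0 := by omega
    rw [this] at ht2
    have : k = 0 := by omega
    rw [this] at hk'
    simp at hk'
  have htp : (0 : ℝ) < t := by exact_mod_cast htpos
  have ht' : 96 * (x : ℝ) ^ 3 * t ≤ k := by exact_mod_cast ht
  have ht2' : (k : ℝ) ≤ 100 * (x : ℝ) ^ 3 * t := by exact_mod_cast ht2
  have h' : (k : ℝ) ^ (2 * t) ≤ N * ((72 * ((x : ℝ) ^ 2) ^ 2) ^ t * t.factorial) := by
    exact_mod_cast h
  have hft : (t.factorial : ℝ) ≤ (t : ℝ) ^ t := by exact_mod_cast Nat.factorial_le_pow t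
  have hN0 : (0 : ℝ) ≤ N := Nat.cast_nonneg _
  -- `k ^ 2 / (72 x ^ 4 t) ≥ k / x`
  have h1 : (k : ℝ) ^ (2 * t) ≤ N * (72 * (x : ℝ) ^ 4 * t) ^ t := by
    refine h'.trans (mul_le_mul_of_nonneg_left ?_ hN0)
    calc (72 * ((x : ℝ) ^ 2) ^ 2) ^ t * t.factorial ≤ (72 * ((x : ℝ) ^ 2) ^ 2) ^ t * (t : ℝ) ^ t :=
          mul_le_mul_of_nonneg_left hft (by positivity)
      _ = (72 * (x : ℝ) ^ 4 * t) ^ t := by
          rw [← mul_pow]
          ring_nf
  have h2 : 72 * (x : ℝ) ^ 4 * t ≤ k * x := by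
    have e1 : 96 * (x : ℝ) ^ 3 * t * x ≤ k * x := mul_le_mul_of_nonneg_right ht' hx'.le
    have e2 : (0 : ℝ) ≤ (x : ℝ) ^ 4 * t := by positivity
    nlinarith
  have h3 : (k : ℝ) ^ (2 * t) ≤ N * ((k : ℝ) * x) ^ t :=
    h1.trans (mul_le_mul_of_nonneg_left (pow_le_pow_left₀ (by positivity) h2 t) hN0)
  have h4 : (k : ℝ) ^ t ≤ N * (x : ℝ) ^ t := by
    have e1 : (k : ℝ) ^ t * (k : ℝ) ^ t ≤ (k : ℝ) ^ t * (N * (x : ℝ) ^ t) := by
      calc (k : ℝ) ^ t * (k : ℝ) ^ t = (k : ℝ) ^ (2 * t) := by rw [← pow_add, two_mul]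
        _ ≤ N * ((k : ℝ) * x) ^ t := h3
        _ = _ := by
            rw [mul_pow]
            ring
    exact le_of_mul_le_mul_left e1 (by positivity)
  -- logarithms
  have hy20 : (12 : ℝ) ^ 20 ≤ y ^ 20 := pow_le_pow_left₀ (by norm_num) hy 20
  have hlogy : Real.log y ≤ y := (Real.log_le_sub_one_of_pos hy0).trans (by linarith)
  have hlogy0 : 0 ≤ Real.log y := Real.log_nonneg (by linarith)
  have hlogx : Real.log x ≤ 5 * Real.log y := by
    have := Real.log_le_log hx' hx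
    rwa [Real.log_pow, Nat.cast_ofNat] at this
  have hNpos : (0 : ℝ) < N := by
    by_contra hc
    have hN : (N : ℝ) = 0 := le_antisymm (not_lt.1 hc) hN0
    rw [hN, zero_mul] at h4
    have : (0 : ℝ) < (k : ℝ) ^ t := by positivity
    linarith
  have h5 : (t : ℝ) * y ^ 20 ≤ Real.log N + t * (5 * Real.log y) := by
    have e1 := Real.log_le_log (by positivity) h4
    rw [Real.log_mul hNpos.ne' (by positivity), Real.log_pow, Real.log_pow, ← hk,
      Real.log_exp] at e1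
    have e2 : (t : ℝ) * Real.log x ≤ t * (5 * Real.log y) :=
      mul_le_mul_of_nonneg_left hlogx htp.le
    linarith
  have hy5 : (12 : ℝ) ^ 5 ≤ y ^ 5 := pow_le_pow_left₀ (by norm_num) hy 5
  have h6 : (k : ℝ) * Real.log y ≤ Real.log N := by
    have e1 : (x : ℝ) ^ 3 ≤ y ^ 15 := by
      calc (x : ℝ) ^ 3 ≤ (y ^ 5) ^ 3 := pow_le_pow_left₀ hx'.le hx 3
        _ = y ^ 15 := by ring
    have e2 : (k : ℝ) ≤ 100 * y ^ 15 * t := by
      refine ht2'.trans ?_
      have := mul_le_mul_of_nonneg_right e1 htp.le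
      linarith
    have e3 : (k : ℝ) * Real.log y ≤ 100 * y ^ 15 * t * y := by
      calc (k : ℝ) * Real.log y ≤ (100 * y ^ 15 * t) * Real.log y :=
            mul_le_mul_of_nonneg_right e2 hlogy0
        _ ≤ _ := mul_le_mul_of_nonneg_left hlogy (by positivity)
    have e4 : 100 * y ^ 15 * t * y + t * (5 * Real.log y) ≤ t * y ^ 20 := by
      have g1 : 100 * y ^ 15 * y + 5 * Real.log y ≤ y ^ 20 := by
        have g2 : y ≤ y ^ 15 * y := by
          have : (1 : ℝ) ≤ y ^ 15 := one_le_pow₀ (by linarith)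
          nlinarith
        have g3 : y ^ 15 * y * 105 ≤ y ^ 20 := by
          have g4 : (105 : ℝ) ≤ y ^ 4 := by
            calc (105 : ℝ) ≤ 12 ^ 4 := by norm_num
              _ ≤ y ^ 4 := pow_le_pow_left₀ (by norm_num) hy 4
          calc y ^ 15 * y * 105 ≤ y ^ 15 * y * y ^ 4 :=
                mul_le_mul_of_nonneg_left g4 (by positivity)
            _ = _ := by ring
        linarith
      calc 100 * y ^ 15 * t * y + t * (5 * Real.log y) =
            t * (100 * y ^ 15 * y + 5 * Real.log y) := by ring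
        _ ≤ t * y ^ 20 := mul_le_mul_of_nonneg_left g1 htp.le
    linarith
  have h7 : Real.log (y ^ k) ≤ Real.log N := by
    rw [Real.log_pow]
    exact h6
  exact (Real.log_le_log_iff (by positivity) hNpos).1 h7

end Pool.Agent.KSLow
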