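import Pool.Agent.KSLow.F
import Pool.Agent.KSN.Final

/-!
MP_31c4fb_co, lower bound for N(0,k), module G: the bound.
-/

namespace Pool.Agent.KSLow

open Finset

variable {k : ℕ}

theorem sorted_bound {a : Fin k → ℤ} (ha : Monotone a) (y : ℝ) (hy : 12 ≤ y)
    (hk : Real.exp (y ^ 20) = k) : y ^ k ≤ ((VV a).card : ℝ) := by
  have hy0 : (0 : ℝ) < y := by linarith
  have hk' : (0 : ℝ) < k := by
    rw [← hk]
    exact Real.exp_pos _
  have hk0 : 0 < k := by exact_mod_cast hk'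
  set x := ⌊y ^ 5⌋₊ with hx
  have hxle : (x : ℝ) ≤ y ^ 5 := Nat.floor_le (by positivity)
  have hxlt : y ^ 5 - 1 < x := Nat.sub_one_lt_floor _
  have hy4 : (12 : ℝ) ^ 4 ≤ y ^ 4 := pow_le_pow_left₀ (by norm_num) hy 4
  have hx11 : 11 * y ^ 4 ≤ x := by
    have h1 : y ^ 5 = y * y ^ 4 := by ring
    have h2 : 12 * y ^ 4 ≤ y * y ^ 4 := mul_le_mul_of_nonneg_right hy (by positivity)
    have h3 : (1 : ℝ) ≤ y ^ 4 := by
      refine le_trans ?_ hy4
      norm_num
    linarith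
  have hx300 : 300 ≤ x := by
    have h1 : (300 : ℝ) ≤ x := by
      have h2 : (300 : ℝ) ≤ 11 * 12 ^ 4 := by norm_num
      linarith
    exact_mod_cast h1
  have hx12 : x ^ 12 ≤ 6 * k := by
    have h1 : (y ^ 20) ^ 3 / (Nat.factorial 3 : ℕ) ≤ Real.exp (y ^ 20) :=
      Real.pow_div_factorial_le_exp _ (by positivity) 3
    rw [hk] at h1
    have h2 : ((Nat.factorial 3 : ℕ) : ℝ) = 6 := by norm_num [Nat.factorial]
    rw [h2, div_le_iff₀ (by norm_num)] at h1
    have h3 : (x : ℝ) ^ 12 ≤ (y ^ 5) ^ 12 := pow_le_pow_left₀ (Nat.cast_nonneg _) hxle 12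
    have h4 : (y ^ 5) ^ 12 = (y ^ 20) ^ 3 := by ring
    have h5 : (x : ℝ) ^ 12 ≤ 6 * k := by linarith
    exact_mod_cast h5
  have hx0 : 0 < x := by omega
  have h8 : 720 * x ^ 8 ≤ k := by
    have h1 : x ^ 12 = x ^ 8 * x ^ 4 := by ring
    have h2 : 300 ^ 4 ≤ x ^ 4 := Nat.pow_le_pow_left hx300 4
    have h3 : x ^ 8 * 300 ^ 4 ≤ x ^ 8 * x ^ 4 := Nat.mul_le_mul_left _ h2
    have h4 : 6 * (720 * x ^ 8) ≤ x ^ 8 * 300 ^ 4 := by
      have : 6 * (720 * x ^ 8) = x ^ 8 * 4320 := by ring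
      rw [this]
      exact Nat.mul_le_mul_left _ (by norm_num)
    omega
  have h83 : x ^ 3 * 300 ^ 5 ≤ x ^ 8 := by
    have h1 : x ^ 8 = x ^ 3 * x ^ 5 := by ring
    rw [h1]
    exact Nat.mul_le_mul_left _ (Nat.pow_le_pow_left hx300 5)
  have hk3 : 2400 * x ^ 3 ≤ k := by
    have h2 : x ^ 3 * 300 ^ 5 = 2400 * x ^ 3 * 1012500000 := by ring
    omega
  have hx3 : x ≤ x ^ 3 := Nat.le_self_pow (by norm_num) x
  have hx23 : x ^ 2 ≤ x ^ 3 := Nat.pow_le_pow_right hx0 (by norm_num)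
  set K := k / 3 with hK
  have hK1 : 2 * K ≤ k := by omega
  have hK4 : k ≤ 4 * K := by omega
  have hK0 : 0 < K := by omega
  have hKk : K ≤ k := by omega
  set t := k / (96 * x ^ 3) with ht
  have hpos : 0 < 96 * x ^ 3 := by positivity
  have ht1 : 96 * x ^ 3 * t ≤ k := Nat.mul_div_le _ _
  have ht24 : 24 ≤ t := by
    rw [ht, Nat.le_div_iff_mul_le hpos]
    omega
  have ht2 : k ≤ 100 * x ^ 3 * t := by
    have h1 : k < 96 * x ^ 3 * (t + 1) := by
      have := Nat.lt_mul_div_succ k hpos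
      rw [ht]
      exact this
    have h2 : 4 * x ^ 3 * 24 ≤ 4 * x ^ 3 * t := Nat.mul_le_mul_left _ ht24
    nlinarith
  set r1 := ((Finset.univ.filter fun i : Fin k => (i : ℕ) < K).image a).card with hr1
  set r3 := ((Finset.univ.filter fun i : Fin k => k - K ≤ (i : ℕ)).image a).card with hr3
  have hf := card_first hKk
  have hl := card_last hKk
  have hr10 : 0 < r1 := by
    rw [hr1, Finset.card_pos, Finset.image_nonempty, ← Finset.card_pos, hf]
    exact hK0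
  have hr30 : 0 < r3 := by
    rw [hr3, Finset.card_pos, Finset.image_nonempty, ← Finset.card_pos, hl]
    exact hK0
  rcases le_or_gt (r1 * x) k with hc1 | hc1
  · have h1 := few_values (valid_one ha) (Finset.univ.filter fun i : Fin k => (i : ℕ) < K)
    rw [hf, ← hr1] at h1
    exact caseA _ K r1 x k y (by linarith) h1 hc1 hr10 hK4 hK0 hx11
  rcases le_or_gt (r3 * x) k with hc3 | hc3
  · have h1 := few_values (valid_one ha) (Finset.univ.filter fun i : Fin k => k - K ≤ (i : ℕ))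
    rw [hl, ← hr3] at h1
    exact caseA _ K r3 x k y (by linarith) h1 hc3 hr30 hK4 hK0 hx11
  have hr : k < min r1 r3 * x := by
    rcases min_choice r1 r3 with h | h <;> rw [h] <;> assumption
  set r := min r1 r3 with hrdef
  have h := count_valid ha (K := K) (r := r) (T := x ^ 2) (t := t) hK1 (min_le_left _ _)
    (min_le_right _ _) (by positivity)
    (by
      have h1 : 6 * x ^ 2 * t ≤ 96 * x ^ 3 * t := Nat.mul_le_mul_right _ (by omega)
      omega)
    (by
      have h1 : x ^ 4 ≤ x ^ 8 := Nat.pow_le_pow_right hx0 (by norm_num)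
      have h2 : 8 * ((3 * x ^ 2) ^ 2 + (3 * x ^ 2) ^ 4) = 72 * x ^ 4 + 648 * x ^ 8 := by ring
      rw [h2]
      omega)
    (by
      intro m hm
      apply fail_small x k _ m hx300 hk0 _ hm
      have h1 : 4 * x * (r / 2 - 2 * (3 * x ^ 2 * t)) =
          4 * x * (r / 2) - 24 * x ^ 3 * t := by
        rw [Nat.mul_sub]
        congr 1
        ring
      rw [h1]
      have h2 : r ≤ 2 * (r / 2) + 1 := by omega
      have h3 : r * x ≤ (2 * (r / 2) + 1) * x := Nat.mul_le_mul_right _ h2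
      have h4 : 2 * ((2 * (r / 2) + 1) * x) = 4 * x * (r / 2) + 2 * x := by ring
      have h5 : 4 * (24 * x ^ 3 * t) = 96 * x ^ 3 * t := by ring
      omega)
  exact caseB _ x k t y hy hk hxle hx0 ht1 ht2 h

theorem VV_sort (a : Fin k → ℤ) (σ : Equiv.Perm (Fin k)) : (VV (a ∘ σ)).card ≤ (VV a).card := by
  apply Finset.card_le_card_of_injOn (fun π => σ * π)
  · intro π hπ
    rw [Finset.mem_coe, mem_VV] at hπ ⊢
    exact hπ
  · intro π _ π' _ h
    exact mul_left_cancel h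

theorem any_bound (a : Fin k → ℤ) (y : ℝ) (hy : 12 ≤ y)
    (hk : Real.exp (y ^ 20) = k) : y ^ k ≤ ((VV a).card : ℝ) := by
  have h1 := sorted_bound (a := a ∘ Tuple.sort a) (Tuple.monotone_sort a) y hy hk
  exact h1.trans (by exact_mod_cast VV_sort a (Tuple.sort a))

theorem ncard_eq (a : Fin k → ZMod 0) :
    {π : Equiv.Perm (Fin k) |
      Function.Injective (fun i : Fin k => a (π i) + (((i : ℕ)) : ZMod 0))}.ncard =
    (VV (k := k) (a : Fin k → ℤ)).card := by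
  rw [← Set.ncard_coe_finset]
  congr 1
  ext π
  rw [Finset.mem_coe, mem_VV]
  exact Iff.rfl

theorem zero_bound (y : ℝ) (hy : 12 ≤ y) (hk : Real.exp (y ^ 20) = k) :
    y ^ k ≤ ((Pool.Agent.KSN.N 0 k : ℕ) : ℝ) := by
  obtain ⟨a, ha⟩ := Nat.sInf_mem (Set.range_nonempty fun a : Fin k → ZMod 0 =>
    {π : Equiv.Perm (Fin k) |
      Function.Injective (fun i : Fin k => a (π i) + (((i : ℕ)) : ZMod 0))}.ncard)
  have h1 : Pool.Agent.KSN.N 0 k = (VV (k := k) (a : Fin k → ℤ)).card := by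
    rw [← ncard_eq a]
    exact ha.symm
  rw [h1]
  exact any_bound _ y hy hk

theorem log_bound (k : ℕ) (hk : Real.exp (12 ^ 20) ≤ k) :
    Real.log k ^ ((k : ℝ) / 20) ≤ ((Pool.Agent.KSN.N 0 k : ℕ) : ℝ) := by
  have hk' : (0 : ℝ) < k := lt_of_lt_of_le (Real.exp_pos _) hk
  have hlog : (12 : ℝ) ^ 20 ≤ Real.log k := by
    rw [Real.le_log_iff_exp_le hk']
    exact hk
  have hlog0 : (0 : ℝ) ≤ Real.log k := le_trans (by positivity) hlog
  set y := Real.log k ^ ((1 : ℝ) / 20) with hy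
  have hy20 : y ^ 20 = Real.log k := by
    rw [hy, ← Real.rpow_natCast, ← Real.rpow_mul hlog0]
    norm_num
  have hy0 : 0 ≤ y := Real.rpow_nonneg hlog0 _
  have hy12 : 12 ≤ y := by
    rw [← hy20] at hlog
    exact le_of_pow_le_pow_left₀ (by norm_num) hy0 hlog
  have h := zero_bound (k := k) y hy12 (by rw [hy20, Real.exp_log hk'])
  refine le_trans (le_of_eq ?_) h
  rw [hy, ← Real.rpow_natCast, ← Real.rpow_mul hlog0]
  congr 1
  ring

theorem final (k n : ℕ) (hk : Real.exp (12 ^ 20) ≤ k)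
    (hn : n = 0 ∨ k * (k - 1) < n ∨ 25000000 * k * (Nat.log 2 k + 1) ^ 2 ≤ n) :
    Real.log k ^ ((k : ℝ) / 20) ≤ ((Pool.Agent.KSN.N n k : ℕ) : ℝ) := by
  rcases hn with hn | hn
  · subst hn
    exact log_bound k hk
  · rw [Pool.Agent.KSN.final.2.1 n k hn]
    exact log_bound k hk

end Pool.Agent.KSLow
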